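import Pool.Agent.X159.TZ.Glob

set_option autoImplicit false

/-! # The strong monodromy conjecture for topological zeta functions: reduction to cubics

We prove that the strong monodromy conjecture for the (global) topological zeta functions of ALL
non-constant polynomials, of all degrees and in all numbers of variables, is EQUIVALENT to the same
statement for the cubic polynomials `x_0 + ∑_j t_j q_j(x)`, `q_j` of degree at most two, that is, for
coordinate functions restricted to intersections of quadrics. The same is proved for the two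
refined forms: every pole of `(s + 1) Z_f(s)` is a root of `b_f(s) / (s + 1)`; and `b_f Z_f` is a
polynomial (orders of poles). All polynomials may have coefficients in a given subfield `k` of `ℂ`.

Method. Every polynomial `f` becomes such a cubic by adding products `y_i z_i` of new variables and an
automorphism of the polynomial ring. The topological zeta function of `F = f + y_1 z_1 + ⋯ + y_κ z_κ` is
`Z_F(s) = (κ + s (s + κ + 1) Z_f(s + κ)) / ((s + 1) (s + κ))` (`stpK 1 κ Z`), proved from the classes of
the sets of jets in the Grothendieck ring, without resolution of singularities; and a functional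
equation of `f` with `b(s) = (s + 1) c(s)` gives one of `F` with `(s + 1) c(s + κ)`. For `κ ≥ 2` the
poles of `Z_f` can be read off from those of `Z_F` and the conjecture for `F` implies it for `f`; one
polynomial `F` suffices, unlike in the motivic case, as there are no zero divisors.

As in the starting files the topological zeta function is defined, as by Denef and Loeser, from
the motivic zeta function `Z_mot(T) = ∑_d [X_d] 𝕃 ^ (-n d) T ^ d`, `X_d` the `d`-jets on which `f` has the
order `d` (`zetaM f Set.univ {c | c ≠ 0}`): `Z_top(s) = χ(Z_mot(𝕃 ^ (-s)))` for `s = 1, 2, 3, …`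
(`IsTopZeta E ε`), `E` a homomorphism from the Grothendieck ring localised at `𝕃` to a domain with
`E(𝕃) ≠ 1`, such as the Hodge-Deligne polynomial, and `ε ∘ E` the Euler characteristic. -/

namespace Pool.Agent.Results.MP_504089_ag.CubicsTopological

open MvPolynomial Pool.Agent.W428.MOT Pool.Agent.TH192.MU Pool.Agent.X159.TZ
open Pool.Agent.TH192.MT (zetaM)
open Pool.Agent.X271.RD (cubic stab)

/-- **Reduction of the strong monodromy conjecture for topological zeta functions to cubics.**
For `P` one of `PRoots` (every pole of `Z` is a root of `b`), `PRef` (every pole of `(s + 1) Z(s)` is a root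
of `b(s) / (s + 1)`), `POrders` (`b Z` is a polynomial), let `TopP E ε P f` say that `P Z b` holds for the
topological zeta function `Z` of `f` and every `b` with `b(s) f ^ s = P(s) f ^ (s + 1)`, in particular
the Bernstein-Sato polynomial.

(1) `TopP E ε P f` holds for all non-constant polynomials `f` over the subfield `k` of `ℂ` if and only if
it holds for all cubics `x_0 + ∑_j t_j q_j(x)` over `k` with `q_j` of degree at most two.

(2) If `f` is non-constant, `κ ≥ 2`, and the image `F` of `f + ∑_{i < κ} y_i z_i` under some automorphism of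
the polynomial ring satisfies `TopP E ε P F`, then `f` satisfies `TopP E ε P f`.

(3) If `Z` is the topological zeta function of `f`, then the one of `F` is
`(κ + s (s + κ + 1) Z(s + κ)) / ((s + 1) (s + κ))`, for every `κ`. -/
theorem result (R : Type) [CommRing R] [IsDomain R] (E : MK ℂ →+* R) (ε : R →+* ℂ)
    (hε : ε (E ((Lu ℂ : (MK ℂ)ˣ) : MK ℂ)) = 1) (hE : E ((Lu ℂ : (MK ℂ)ˣ) : MK ℂ) ≠ 1) :
    (∀ P : RatFunc ℂ → Polynomial ℂ → Prop, P = PRoots ∨ P = PRef ∨ P = POrders →
      (∀ (k : Type) [Field k] [Algebra k ℂ],
        (∀ (n : ℕ) (f : MvPolynomial (Fin n) k), f.totalDegree ≠ 0 →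
          TopP E ε P (map (algebraMap k ℂ) f)) ↔
        ∀ (n l : ℕ) (q : Fin l → MvPolynomial (Fin (n + 1)) k), (∀ j, (q j).totalDegree ≤ 2) →
          TopP E ε P (map (algebraMap k ℂ) (cubic q))) ∧
      ∀ (n : ℕ) (f : MvPolynomial (Fin n) ℂ), f.totalDegree ≠ 0 → ∀ κ : ℕ, 2 ≤ κ →
        ∀ Φ : MvPolynomial (Fin (n + (κ + κ))) ℂ ≃ₐ[ℂ] MvPolynomial (Fin (n + (κ + κ))) ℂ,
          TopP E ε P (Φ (stab f κ)) → TopP E ε P f) ∧
    ∀ (n : ℕ) (f : MvPolynomial (Fin n) ℂ) (Z : RatFunc ℂ),
      IsTopZeta E ε (zetaM f Set.univ {c | c ≠ 0}) Z → ∀ κ : ℕ,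
        ∀ Φ : MvPolynomial (Fin (n + (κ + κ))) ℂ ≃ₐ[ℂ] MvPolynomial (Fin (n + (κ + κ))) ℂ,
          IsTopZeta E ε (zetaM (Φ (stab f κ)) Set.univ {c | c ≠ 0}) (stpK 1 κ Z) := by
  refine ⟨fun P hP => ?_, fun n f Z hZ κ Φ => top_stab hε hE hZ κ Φ⟩
  have hd : ∀ κ, 2 ≤ κ → Desc κ P := by
    intro κ hκ
    rcases hP with rfl | rfl | rfl
    · exact desc_roots hκ
    · exact desc_ref (by omega)
    · exact desc_orders (by omega)
  exact ⟨fun k _ _ => cubicsT hε hE hd k, fun n f hf κ hκ Φ h =>
    transferT hε hE (hd κ hκ) hf Φ h⟩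

end Pool.Agent.Results.MP_504089_ag.CubicsTopological
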