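import Pool.Agent.X303.MC.TopOrd

set_option autoImplicit false

/-! # The strong monodromy conjecture for products of powers of forms over ideals with Rees divisors,
# one pole at a time, with orders of poles

Let `g t j ∈ ℂ[x_i]`, `t ∈ T`, be generators of ideals `I_t ≠ 0` (no condition on the dimension, on
the number of the ideals or on their zero sets), let `F_t = ∑_j y_{t,j} g t j`, where the `y_{t,j}`
are further variables, separate for each `t` (`blockForm`), and let `f = ∏ t, F_t ^ a t` (`powProd`).
Let `Y` be a log resolution of the product of the `I_t` with `a t > 0`, with the components `E_i`,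
`i ∈ I`, let `k i` be the multiplicity of `E_i` in the relative canonical divisor and `m i t` the order
of `I_t` along `E_i`. Locally on `Y` the form `F_t` is one of the `g t j` times
`y_{t,j} + ∑_{i ≠ j} h_i y_{t,i}`, so it is a monomial times a function whose zero locus is smooth;
these zero loci, for the different `t`, cross each other and the `E_i` normally. Hence `Y` times the
space of the `y` is an embedded resolution of `f`, with the components `E_i`, of multiplicity
`N_i = ∑ t, a t * m i t` (and `ν_i = k i + 1`), and, for `a t > 0`, the strict transform of `F_t = 0`, of
multiplicity `a t` (and `ν = 1`): `mulR`, `nuR`.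

The global topological zeta function of `f` is `topZ (nuR k T) (mulR a m) χ`, the sum over the sets `J`
of components of `χ J ∏_{i ∈ J} 1 / (N_i s + ν_i)`, where `χ J` is the Euler characteristic of the stratum
`E_J°`. The theorem is about one pole `s₀`: only those `E_i` matter for which `-ν_i / N_i = s₀`, and
which occur in a stratum with `χ J ≠ 0`. If they are Rees divisors of the product of the ideals, or if
at least their numbers come from Rees divisors (`FromRees`), then `s₀` is a root of the
Bernstein-Sato polynomial of `f`. If no stratum with `χ J ≠ 0` is contained in two components with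
`-ν / N = s₀` (the strict transforms included), the order of the pole `s₀` is at most the multiplicity
of this root. (The starting result `MP_a2a574_ag.ReesProducts` has the first part under the
condition for all poles at once.)

The proof for the roots: a functional equation of `f` gives a functional equation of the product of
the powers of the ideals, with the same `b` (`locEq_of_powProd`); a Rees divisor of this product
gives roots, by a residue computation at a general point of `E_i` (`rees_prod`); the roots `-1 / a t`
come from the strict transforms (`strict_root`). -/

namespace Pool.Agent.Results.MP_504089_ag.ReesProducts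

open Pool.Agent.H628R4.TP Pool.Agent.TH192.DT Pool.Agent.Y231.RF Pool.Agent.Y228.RR
  Pool.Agent.X303.MC

/-- **The strong monodromy conjecture for products of powers of forms over ideals with Rees
divisors, one pole at a time.** Let `f = ∏ t, F_t ^ a t`, `F_t = ∑_j y_{t,j} g t j`, and let `s₀` be a
complex number such that the numbers `-ν_i / N_i` of the components `E_i`, `N_i > 0`, with
`-ν_i / N_i = s₀` which occur in a stratum with `χ J ≠ 0` come from Rees divisors. Let `b` satisfy
`b(s) f ^ s = P(s) f ^ (s + 1)`, for example `b = b_f`.
(1) If `s₀` is a pole of the topological zeta function of `f`, computed on the resolution described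
above, then `b(s₀) = 0`.
(2) If `b ≠ 0` and every stratum with `χ J ≠ 0` has at most one component `x` with `N_x > 0` and
`-ν_x / N_x = s₀`, then the order of the pole `s₀` is at most the multiplicity of the root `s₀` of `b`.

`FromRees g a H ν N` says that `ν / N = (k_E + 1 + l) / N_E` for a Rees divisor `E` of the product of the
ideals `I_t` with `a t ≠ 0` and a general point of `E` over a point of the affine space at which `H`
does not vanish, where `k_E` is the multiplicity of `E` in the relative canonical divisor, `N_E` is
the order of `∏ t, I_t ^ a t` along `E`, and `l < N_E` is the order along `E` of some polynomial (for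
instance `1`, with `l = 0`; for a component `E_i` which is itself a Rees divisor `E = E_i`, `l = 0`).

`Chart g` is a formal chart of the resolution at a point `p` of a prime divisor `E` over the affine
space: power series `ξ i` (the coordinates `x i` of the affine space), in formal coordinates at `p`
one of which, `z`, is the equation of `E`, whose Jacobian determinant is `z ^ k` times a unit, and
for which each `I_t` becomes `(z ^ m t)`. `E.IsRees A` says that the map from `E` to the product of
the affine space and of the projective spaces of the generators of the `I_t`, `t ∈ A`, is unramified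
at `p`: some functions which together with `z` are formal coordinates at `p` are pull-backs of
polynomials or of quotients `(∑ j, c_j g s j) / g s (j0 s)`, `s ∈ A`. This is so at the general points
of a divisor `E` if and only if `E` is a Rees divisor of the product of the `I_t`, `t ∈ A` (it is not
contracted in the blow-up of the product). -/
theorem result {σ T I : Type} [Fintype σ] [DecidableEq σ] [Fintype T] [DecidableEq T] [Fintype I]
    {κ : T → Type} [∀ t, Fintype (κ t)] [∀ t, DecidableEq (κ t)]
    (g : (t : T) → κ t → MvPolynomial σ ℂ) (hg : ∀ t, ∃ j, g t j ≠ 0) (a : T → ℕ)
    (k : I → ℕ) (m : I → T → ℕ) (χ : Finset (I ⊕ T) → ℤ) (s₀ : ℂ)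
    (hE : ∀ i, 0 < ∑ t, a t * m i t → ((k i + 1 : ℕ) : ℂ) + (∑ t, a t * m i t : ℕ) * s₀ = 0 →
      (∃ J, χ J ≠ 0 ∧ Sum.inl i ∈ J) → FromRees g a 1 (k i + 1) (∑ t, a t * m i t))
    (b : Polynomial ℂ) (hb : IsBFunction (powProd a g) b) :
    ((topZ (nuR k T) (mulR a m) χ).denom.eval s₀ = 0 → b.eval s₀ = 0) ∧
    (b ≠ 0 → (∀ J, χ J ≠ 0 → Nat.card {x // x ∈ J ∧ 0 < mulR a m x ∧
        (nuR k T x : ℂ) + mulR a m x * s₀ = 0} ≤ 1) →
      (topZ (nuR k T) (mulR a m) χ).denom.rootMultiplicity s₀ ≤ b.rootMultiplicity s₀) :=
  ⟨fun hs => rees_pole_global g hg a k m χ s₀ hE hs b hb, fun hb0 hM =>
    topZ_one _ _ χ (nuR_pos k) s₀ b hb0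
      (fun hs => rees_pole_global g hg a k m χ s₀ hE hs b hb) hM⟩

end Pool.Agent.Results.MP_504089_ag.ReesProducts
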